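import Pool.Agent.Y223.INV.Fin

/-!
MP_53121e_ag: local uniformization, in every transcendence degree and over arbitrary fields `k`, of
all valuations of the function fields of the quotients of regular projective varieties by
involutions. In characteristic `2` the involution may be wild, it may have fixed divisors, and the
other fixed points need not be isolated.

The regular projective variety `X` over `k` is given by homogeneous coordinates `H j` in its
function field `K`: its charts are the spectra of the rings `k[H 0 / H j, ..., H N / H j] ⊆ K`. The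
involution `σ ≠ 1` of `K` maps linear forms to linear forms, so that it acts on `X`, and `F` is the
field of the invariants, the function field of the quotient. A `σ`-stable space `I ≠ 0` of linear
forms cuts out the centre (it is empty if `I` is the space of all linear forms). There are no
conditions on the fixed points if the characteristic of `k` is not `2`.
-/

set_option autoImplicit false

namespace Pool.Agent.Results.MP_53121e_ag.InvolutionQuotients

/-- The coordinate ring `k[H l / H j : l]` of the chart `j` of the projective model of `F` with the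
homogeneous coordinates `H`. -/
def modelChart (k : Type) {F : Type} [Field k] [Field F] [Algebra k F] {N : ℕ} (H : Fin N → F)
    (j : Fin N) : Subalgebra k F :=
  Algebra.adjoin k (Set.range fun l => H l / H j)

/-- The function field `F` of `k` has a projective model (with homogeneous coordinates `H`) on
which the centre of the valuation ring `V` is a regular point. The chart `j` contains the centre of
`V`, and `P` is the ideal of the centre. -/
def IsUniformizable (k : Type) {F : Type} [Field k] [Field F] [Algebra k F]
    (V : ValuationSubring F) : Prop :=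
  ∃ (N : ℕ) (H : Fin N → F) (j : Fin N), H j ≠ 0 ∧ (∀ l, H l / H j ∈ V) ∧
    (∀ z : F, ∃ a ∈ modelChart k H j, ∃ b ∈ modelChart k H j, b ≠ 0 ∧ z = a / b) ∧
    ∃ P : Ideal (modelChart k H j), ∃ (_ : P.IsPrime),
      (∀ b : modelChart k H j, b ∈ P ↔ V.valuation (b : F) < 1) ∧
        IsRegularLocalRing (Localization.AtPrime P)

section conditions

variable {k K : Type} [Field k] [Field K] [Algebra k K]

/-- The ring `k[H 0 / H j, ..., H N / H j]` of the chart `H j ≠ 0` of `X`. -/
def chartRing (k : Type) {K : Type} [Field k] [Field K] [Algebra k K] {N : ℕ}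
    (H : Fin (N + 1) → K) (j : Fin (N + 1)) : Subring K :=
  (Algebra.adjoin k (Set.range fun l => H l / H j)).toSubring

/-- The local ring at the prime `𝔮` of the subring `A` of the field `K`, as a subring of `K`. -/
noncomputable def localRing (A : Subring K) (𝔮 : Ideal A) [𝔮.IsPrime] : Subring K :=
  (LocalSubring.ofPrime A 𝔮).toSubring

/-- The ideal generated by the linear forms in `I` (divided by the linear form `h`) in `R`. -/
def centreIdeal (I : Submodule k K) (h : K) (R : Subring K) : Ideal R :=
  Ideal.span {y : R | ∃ n ∈ I, (y : K) = n / h}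

variable (σ : K ≃ₐ[k] K)

/-- The point with the local ring `R` is a point of the fixed scheme of `σ`: the ring `R` is stable
under `σ`, which acts trivially on its residue field. -/
def IsFixed (R : Subring K) : Prop :=
  ∀ x : R, ∃ y : R, (y : K) = σ x ∧ ¬ IsUnit (y - x)

/-- `σ = 1 + t δ` on `R`, where the ideal generated by the image of `δ` is the unit ideal, or has a
regular quotient: the fixed scheme is the sum of the divisor of `t` and a regular scheme. -/
def RegularWild (R : Subring K) : Prop :=
  ∃ (t : R) (δ : R → R), t ≠ 0 ∧ (∀ x : R, σ x = x + t * δ x) ∧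
    (Ideal.span (Set.range δ) = ⊤ ∨ IsRegularLocalRing (R ⧸ Ideal.span (Set.range δ)))

/-- `σ = 1 + t δ` on `R`, and `δ ∘ δ = ε δ`, where `ε` and the image of `δ` are in the ideal `I` of
the centre, and `δ` maps `I` to `I ^ 2`, and the leading form of `δ` along the centre has no zeros:
the products of `n + 2` elements of `I` are combinations of the elements `ε a` and `δ(x) a`,
`a ∈ I ^ (n + 1)`, and `δ(y) b`, `y ∈ I`, `b ∈ I ^ n`. -/
def NondegenerateWild (R : Subring K) (I : Ideal R) : Prop :=
  ∃ (t ε : R) (δ : R → R), t ≠ 0 ∧ (∀ x : R, σ x = x + t * δ x) ∧ (∀ x, δ (δ x) = ε * δ x) ∧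
    ε ∈ I ∧ (∀ x, δ x ∈ I) ∧ (∀ x ∈ I, δ x ∈ I ^ 2) ∧
    ∃ n : ℕ, I ^ (n + 2) ≤ (Ideal.span {ε} ⊔ Ideal.span (Set.range δ)) * I ^ (n + 1) ⊔
      Ideal.span (δ '' I) * I ^ n

/-- The centre is empty or regular at the point with the local ring `R`, and the fixed points of
characteristic `2` outside the centre, and on the centre, satisfy the respective condition. -/
def PointCondition (R : Subring K) (I : Ideal R) : Prop :=
  (I = ⊤ ∨ IsRegularLocalRing (R ⧸ I)) ∧
    (¬ IsUnit (2 : R) → IsFixed σ R →
      (I = ⊤ → RegularWild σ R) ∧ (I ≠ ⊤ → NondegenerateWild σ R I))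

end conditions

open Pool.Agent.H918R2.Quad Pool.Agent.TH188.ARC Pool.Agent.TH188.QS Pool.Agent.W418.LU2 in
/-- A field with a module with regular charts admits local uniformization. -/
theorem uniformizable {k F : Type} [Field k] [Field F] [Algebra k F] (h : HasModule k F)
    (V : ValuationSubring F) (hV : ∀ a : k, algebraMap k F a ∈ V) : IsUniformizable k V := by
  classical
  obtain ⟨M, ⟨G, hG⟩, ⟨f, hf, hf0⟩, hfr, hreg⟩ := h
  let H : Fin G.card → F := fun i => (G.equivFin.symm i : F)
  have hHG : ∀ i, H i ∈ G := fun i => (G.equivFin.symm i).2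
  have hGH : ∀ x ∈ G, ∃ i, H i = x := fun x hx =>
    ⟨G.equivFin ⟨x, hx⟩, by simp only [H, Equiv.symm_apply_apply]⟩
  have hHM : ∀ i, H i ∈ M := fun i => hG ▸ Submodule.subset_span (hHG i)
  have hne : Nonempty (Fin G.card) := by
    by_contra hcon
    rw [not_nonempty_iff] at hcon
    apply hf0
    have h1 : (G : Set F) = ∅ := by
      rw [Set.eq_empty_iff_forall_notMem]
      intro x hx
      obtain ⟨i, -⟩ := hGH x hx
      exact hcon.elim i
    rw [← hG, h1, Submodule.span_empty] at hf
    exact (Submodule.mem_bot _).1 hf
  obtain ⟨j, hj⟩ := Finite.exists_max (fun i => V.valuation (H i))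
  have hj0 : H j ≠ 0 := by
    intro h0
    apply hf0
    have h1 : Submodule.span k (G : Set F) ≤ ⊥ := by
      rw [Submodule.span_le]
      intro x hx
      obtain ⟨i, rfl⟩ := hGH x hx
      have h2 := hj i
      rw [h0, map_zero, le_zero_iff] at h2
      exact (Valuation.zero_iff _).1 h2
    rw [hG] at h1
    exact (Submodule.mem_bot _).1 (h1 hf)
  have hHV : ∀ l, H l / H j ∈ V := by
    intro l
    rw [← V.valuation_le_one_iff, map_div₀]
    exact div_le_one_of_le₀ (hj l) zero_le
  have hchart : modelChart k H j = chart k M (H j) := by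
    apply le_antisymm
    · refine Algebra.adjoin_mono ?_
      rintro _ ⟨l, rfl⟩
      exact ⟨H l, hHM l, rfl⟩
    · refine Algebra.adjoin_le ?_
      rintro _ ⟨m, hm, rfl⟩
      change m / H j ∈ modelChart k H j
      rw [← hG] at hm
      induction hm using Submodule.span_induction with
      | mem m hm =>
        obtain ⟨i, rfl⟩ := hGH m hm
        exact Algebra.subset_adjoin ⟨i, rfl⟩
      | zero => rw [zero_div]; exact Subalgebra.zero_mem _
      | add a b _ _ ha hb => rw [add_div]; exact Subalgebra.add_mem _ ha hb
      | smul c a _ ha => rw [smul_div_assoc]; exact Subalgebra.smul_mem _ ha c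
  have hle : ∀ x ∈ modelChart k H j, x ∈ V := by
    let V' : Subalgebra k F := { V.toSubring with algebraMap_mem' := hV }
    have h1 : modelChart k H j ≤ V' := Algebra.adjoin_le (by
      rintro _ ⟨l, rfl⟩
      exact hHV l)
    exact fun x hx => h1 hx
  refine ⟨G.card, H, j, hj0, hHV, ?_, ?_⟩
  · rw [hchart]
    exact hfr (H j) (hHM j) hj0
  · let φ : modelChart k H j →+* V :=
      (modelChart k H j).toSubring.subtype.codRestrict V fun x => hle x x.2
    let P : Ideal (modelChart k H j) := (IsLocalRing.maximalIdeal V).comap φ
    have hP : P.IsPrime := Ideal.comap_isPrime _ _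
    refine ⟨P, hP, fun b => V.valuation_lt_one_iff (φ b), ?_⟩
    have key : ∀ (C : Subalgebra k F), C = chart k M (H j) → ∀ (q : Ideal C) [q.IsPrime],
        IsRegularLocalRing (Localization.AtPrime q) := by
      rintro _ rfl q hq
      exact hreg (H j) (hHM j) hj0 q
    exact key _ hchart P

/-- Let `k` be a field and `X` a regular projective variety over `k` with the homogeneous
coordinates `H j` in its function field `K`, and `σ ≠ 1` an involution of `K` over `k` which maps
linear forms to linear forms, with the field of invariants `F`. Let `I ≠ 0` be a `σ`-stable space of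
linear forms, such that the condition `PointCondition` is satisfied at all points of `X`. Then every
valuation ring `V` of `F` over `k` admits local uniformization: `F` has a projective model on which
the centre of `V` is a regular point. -/
theorem result (k K : Type) [Field k] [Field K] [Algebra k K]
    {N : ℕ} (H : Fin (N + 1) → K) (hH : ∀ j, H j ≠ 0)
    (hreg : ∀ j, IsRegularRing (chartRing k H j))
    (hfrac : ∀ y : K, ∃ a ∈ chartRing k H 0, ∃ b ∈ chartRing k H 0, b ≠ 0 ∧ y = a / b)
    (σ : K ≃ₐ[k] K) (hσ : ∀ y, σ (σ y) = y) (hσ1 : σ ≠ 1)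
    (hσH : ∀ j, σ (H j) ∈ Submodule.span k (Set.range H))
    (F : Type) [Field F] [Algebra k F] [Algebra F K] [IsScalarTower k F K]
    (hF : ∀ y, σ y = y ↔ ∃ f : F, algebraMap F K f = y)
    (I : Submodule k K) (hI : I ≤ Submodule.span k (Set.range H)) (hI0 : I ≠ ⊥)
    (hσI : ∀ x ∈ I, σ x ∈ I)
    (h : ∀ j (𝔮 : Ideal (chartRing k H j)) [𝔮.IsPrime],
      PointCondition σ (localRing (chartRing k H j) 𝔮)
        (centreIdeal I (H j) (localRing (chartRing k H j) 𝔮)))
    (V : ValuationSubring F) (hV : ∀ a : k, algebraMap k F a ∈ V) : IsUniformizable k V := by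
  have hcl : Subfield.closure (chartRing k H 0 : Set K) = ⊤ := by
    rw [← top_le_iff]
    intro y _
    obtain ⟨a, ha, b, hb, -, rfl⟩ := hfrac y
    exact Subfield.div_mem _ (Subfield.subset_closure ha) (Subfield.subset_closure hb)
  have hσ1' : ∃ x, σ x ≠ x := by
    by_contra hcon
    push Not at hcon
    exact hσ1 (AlgEquiv.ext hcon)
  exact uniformizable (Pool.Agent.Y223.INV.inv_module (F := F) (algebraMap k K).injective H hH hreg 0
    hcl σ hσ hσ1' hσH I hI hI0 hσI h hF) V hV

end Pool.Agent.Results.MP_53121e_ag.InvolutionQuotients
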